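import Pool.Agent.W809.JS.Stm

set_option autoImplicit false

open MeasureTheory Filter Topology Set Metric Real
open Pool.Agent.Results.MP_5c297c_an.NotJessen

namespace Pool.Agent.W331.JS.Small
open Pool.Agent.W809.JS

variable {n : ℕ}

/-- the point with the `i`-th coordinate replaced -/
noncomputable def W (p : Fin n → ℝ) (i j : Fin n) (q : (Fin n → ℝ) × ℝ) (ζ : ℂ) : Fin n → ℂ :=
  Function.update (cpt q.1 (yt p i j q.2)) i ζ

lemma continuous_yt (p : Fin n → ℝ) (i j : Fin n) : Continuous (yt p i j) := by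
  unfold yt
  refine continuous_pi fun k => ?_
  split_ifs <;> fun_prop

lemma continuous_W (p : Fin n → ℝ) (i j : Fin n) :
    Continuous (fun u : ((Fin n → ℝ) × ℝ) × ℂ => W p i j u.1 u.2) := by
  unfold W
  refine Continuous.update ?_ i continuous_snd
  have h1 : Continuous (fun u : ((Fin n → ℝ) × ℝ) × ℂ => yt p i j u.1.2) :=
    (continuous_yt p i j).comp (by fun_prop)
  have h2 : Continuous (fun u : ((Fin n → ℝ) × ℝ) × ℂ => u.1.1) := by fun_prop
  exact continuous_cpt.comp (h2.prodMk h1)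

lemma W_mem {p : Fin n → ℝ} {i j : Fin n} {r R' : ℝ} (hr : 0 < r) (hr1 : r ≤ 1) (hR : 4 * r < R')
    {q : (Fin n → ℝ) × ℝ} {ζ : ℂ} (ht : q.2 ∈ Icc 0 (r / 2))
    (hz : |ζ.im - (p i + q.2 ^ 2)| ≤ r) : W p i j q ζ ∈ tube (ball p R') := by
  show imPart (W p i j q ζ) ∈ ball p R'
  rw [mem_ball]
  refine lt_of_le_of_lt ?_ hR
  rw [dist_pi_le_iff (by positivity)]
  intro k
  rw [Real.dist_eq]
  have h2 : q.2 ^ 2 ≤ r / 4 := by nlinarith [ht.1, ht.2]
  have h3 : 0 ≤ q.2 ^ 2 := sq_nonneg _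
  by_cases hk : k = i
  · subst hk
    simp only [imPart, W, Function.update_self]
    rw [abs_le] at hz ⊢
    constructor <;> linarith
  · have : imPart (W p i j q ζ) k = yt p i j q.2 k := by simp [imPart, W, hk, cpt]
    rw [this]
    unfold yt
    rw [if_neg hk]
    split_ifs
    · rw [abs_le]; constructor <;> linarith [ht.1, ht.2]
    · simp; linarith

lemma W_add (p : Fin n → ℝ) (i j : Fin n) (x h : Fin n → ℝ) (t : ℝ) (ζ : ℂ) :
    W p i j (x - h, t) (ζ - (h i : ℂ)) + cpt h 0 = W p i j (x, t) ζ := by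
  funext k
  by_cases hk : k = i
  · subst hk; simp [W, cpt]
  · simp [W, cpt, hk]; ring

/-- the recentred bad set, for a function `F` -/
def Bset (F : (Fin n → ℂ) → ℂ) (p : Fin n → ℝ) (i j : Fin n) (r ε : ℝ) : Set ((Fin n → ℝ) × ℝ) :=
  {q | q.1 ∈ closedBall (0 : Fin n → ℝ) r ∧ q.2 ∈ Icc 0 (r / 2) ∧ ∃ ζ : ℂ, |ζ.re| ≤ 2 * r ∧
    |ζ.im - (p i + q.2 ^ 2)| ≤ ε ∧ F (W p i j q ζ) = 0}

lemma bad_subset (f : (Fin n → ℂ) → ℂ) (p : Fin n → ℝ) (i j : Fin n) (r ε : ℝ) (h : Fin n → ℝ) :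
    bad f p i j r ε h ⊆ (fun q => ((-h, 0) : (Fin n → ℝ) × ℝ) + q) ⁻¹'
      Bset (fun z => f (z + cpt h 0)) p i j r ε := by
  rintro ⟨x, t⟩ ⟨h1, h2, ζ, h3, h4, h5⟩
  have e : ((-h, 0) : (Fin n → ℝ) × ℝ) + (x, t) = (x - h, t) := by
    ext1
    · simp [sub_eq_neg_add]
    · simp
  show ((-h, 0) : (Fin n → ℝ) × ℝ) + (x, t) ∈ Bset (fun z => f (z + cpt h 0)) p i j r ε
  rw [e]
  refine ⟨?_, h2, ζ - (h i : ℂ), ?_, ?_, ?_⟩
  · rw [mem_closedBall_iff_norm] at h1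
    simpa using h1
  · simpa using h3
  · simpa using h4
  · show f (W p i j (x - h, t) (ζ - (h i : ℂ)) + cpt h 0) = 0
    rw [W_add]; exact h5

lemma volume_bad_le (f : (Fin n → ℂ) → ℂ) (p : Fin n → ℝ) (i j : Fin n) (r ε : ℝ) (h : Fin n → ℝ) :
    volume (bad f p i j r ε h) ≤ volume (Bset (fun z => f (z + cpt h 0)) p i j r ε) := by
  refine (measure_mono (bad_subset f p i j r ε h)).trans (le_of_eq ?_)
  rw [Measure.volume_eq_prod]
  exact measure_preimage_add _ _ _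

/-- the compact box of slices and replaced coordinates -/
def Kset (p : Fin n → ℝ) (i : Fin n) (r ε : ℝ) : Set (((Fin n → ℝ) × ℝ) × ℂ) :=
  {u | u.1.1 ∈ closedBall (0 : Fin n → ℝ) r ∧ u.1.2 ∈ Icc 0 (r / 2) ∧ |u.2.re| ≤ 2 * r ∧
    |u.2.im - (p i + u.1.2 ^ 2)| ≤ ε}

lemma isClosed_K (p : Fin n → ℝ) (i : Fin n) (r ε : ℝ) : IsClosed (Kset p i r ε) := by
  refine IsClosed.inter (isClosed_closedBall.preimage (by fun_prop)) ?_
  refine IsClosed.inter (isClosed_Icc.preimage (by fun_prop)) ?_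
  refine IsClosed.inter ?_ ?_
  · have h1 : Continuous (fun u : ((Fin n → ℝ) × ℝ) × ℂ => |u.2.re|) :=
      (Complex.continuous_re.comp continuous_snd).abs
    exact isClosed_le h1 continuous_const
  · have h1 : Continuous (fun u : ((Fin n → ℝ) × ℝ) × ℂ => |u.2.im - (p i + u.1.2 ^ 2)|) := by
      have h2 : Continuous (fun u : ((Fin n → ℝ) × ℝ) × ℂ => u.2.im) :=
        Complex.continuous_im.comp continuous_snd
      fun_prop
    exact isClosed_le h1 continuous_const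

lemma norm_le_of {p : Fin n → ℝ} {i : Fin n} {r ε t : ℝ} {ζ : ℂ} (hr : 0 < r) (hr1 : r ≤ 1)
    (hε : ε ≤ r) (ht : t ∈ Icc 0 (r / 2)) (h1 : |ζ.re| ≤ 2 * r)
    (h2 : |ζ.im - (p i + t ^ 2)| ≤ ε) : ‖ζ‖ ≤ |p i| + 4 * r := by
  refine (Complex.norm_le_abs_re_add_abs_im ζ).trans ?_
  have h3 : t ^ 2 ≤ r / 4 := by nlinarith [ht.1, ht.2]
  have h4 : 0 ≤ t ^ 2 := sq_nonneg _
  have h5 : |ζ.im| ≤ |p i| + 2 * r := by
    rw [abs_le] at h2 ⊢
    have := neg_abs_le (p i)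
    have := le_abs_self (p i)
    constructor <;> linarith
  linarith

lemma isCompact_K {p : Fin n → ℝ} {i : Fin n} {r ε : ℝ} (hr : 0 < r) (hr1 : r ≤ 1) (hε : ε ≤ r) :
    IsCompact (Kset p i r ε) := by
  have h0 : IsCompact ((closedBall (0 : Fin n → ℝ) r ×ˢ Icc 0 (r / 2)) ×ˢ
      closedBall (0 : ℂ) (|p i| + 4 * r)) :=
    ((isCompact_closedBall _ _).prod isCompact_Icc).prod (isCompact_closedBall _ _)
  refine h0.of_isClosed_subset (isClosed_K p i r ε) ?_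
  rintro ⟨⟨x, t⟩, ζ⟩ ⟨h1, h2, h3, h4⟩
  refine ⟨⟨h1, h2⟩, ?_⟩
  rw [mem_closedBall_zero_iff]
  exact norm_le_of hr hr1 hε h2 h3 h4

lemma measurable_B {F : (Fin n → ℂ) → ℂ} {p : Fin n → ℝ} {i j : Fin n} {r R' ε : ℝ} (hr : 0 < r)
    (hr1 : r ≤ 1) (hR : 4 * r < R') (hε : ε ≤ r) (hF : DifferentiableOn ℂ F (tube (ball p R'))) :
    MeasurableSet (Bset F p i j r ε) := by
  have hK := isCompact_K (p := p) (i := i) hr hr1 hε
  have hc : ContinuousOn (fun u : ((Fin n → ℝ) × ℝ) × ℂ => F (W p i j u.1 u.2)) (Kset p i r ε) := by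
    refine hF.continuousOn.comp (continuous_W p i j).continuousOn ?_
    rintro u ⟨h1, h2, h3, h4⟩
    exact W_mem hr hr1 hR h2 (h4.trans hε)
  have h1 : IsClosed (Kset p i r ε ∩
      (fun u : ((Fin n → ℝ) × ℝ) × ℂ => F (W p i j u.1 u.2)) ⁻¹' {0}) :=
    hc.preimage_isClosed_of_isClosed (isClosed_K p i r ε) isClosed_singleton
  have h2 : IsCompact (Kset p i r ε ∩
      (fun u : ((Fin n → ℝ) × ℝ) × ℂ => F (W p i j u.1 u.2)) ⁻¹' {0}) :=
    hK.of_isClosed_subset h1 inter_subset_left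
  have h3 : Bset F p i j r ε = Prod.fst '' (Kset p i r ε ∩
      (fun u : ((Fin n → ℝ) × ℝ) × ℂ => F (W p i j u.1 u.2)) ⁻¹' {0}) := by
    ext q
    constructor
    · rintro ⟨a, b, ζ, c, d, e⟩
      exact ⟨(q, ζ), ⟨⟨a, b, c, d⟩, e⟩, rfl⟩
    · rintro ⟨⟨q', ζ⟩, ⟨⟨a, b, c, d⟩, e⟩, rfl⟩
      exact ⟨a, b, ζ, c, d, e⟩
  rw [h3]
  exact (h2.image continuous_fst).measurableSet

lemma limsup_null {B : ℕ → Set ((Fin n → ℝ) × ℝ)} {r : ℝ} {c : ENNReal} (hc : 0 < c)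
    (hB : ∀ k, MeasurableSet (B k)) (hsub : ∀ k, B k ⊆ closedBall (0 : Fin n → ℝ) r ×ˢ Icc 0 (r / 2))
    (hv : ∀ k, c < volume (B k)) : volume (⋂ N, ⋃ k, ⋃ (_ : N ≤ k), B k) ≠ 0 := by
  intro h0
  have hm : ∀ N, MeasurableSet (⋃ k, ⋃ (_ : N ≤ k), B k) := fun N =>
    MeasurableSet.iUnion fun k => MeasurableSet.iUnion fun _ => hB k
  have hanti : Antitone (fun N : ℕ => ⋃ k, ⋃ (_ : N ≤ k), B k) := by
    intro N N' hN x hx
    simp only [mem_iUnion] at hx ⊢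
    obtain ⟨k, hk, hx⟩ := hx
    exact ⟨k, hN.trans hk, hx⟩
  have hfin : volume (⋃ k, ⋃ (_ : 0 ≤ k), B k) ≠ ⊤ := by
    refine ne_top_of_le_ne_top (b := volume (closedBall (0 : Fin n → ℝ) r ×ˢ Icc 0 (r / 2))) ?_
      (measure_mono ?_)
    · exact ((isCompact_closedBall _ _).prod isCompact_Icc).measure_lt_top.ne
    · exact iUnion_subset fun k => iUnion_subset fun _ => hsub k
  have ht := tendsto_measure_iInter_atTop (μ := volume)
    (fun N => (hm N).nullMeasurableSet) hanti ⟨0, hfin⟩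
  rw [h0] at ht
  have h1 := ge_of_tendsto' ht (b := c) (fun N => ?_)
  · exact absurd h1 (not_le.2 hc)
  · refine (hv N).le.trans (measure_mono ?_)
    intro x hx
    simp only [mem_iUnion]
    exact ⟨N, le_rfl, hx⟩

theorem small : S_HULL → S_NV → S_NULLN → S_SMALL := by
  intro hHULL hNV hNULL n i j hij f p R M r hr hr1 hrR hM hHol hAP hne δ hδ
  by_contra hcon
  push Not at hcon
  have hch : ∀ k : ℕ, ∃ ε : ℝ, (0 < ε ∧ ε ≤ r / (k + 1)) ∧ ∃ h : Fin n → ℝ,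
      ENNReal.ofReal δ < volume (bad f p i j r ε h) := by
    intro k
    obtain ⟨ε, h1, h2, h, h3⟩ := hcon (r / (k + 1)) (by positivity)
    exact ⟨ε, ⟨h1, h2⟩, h, h3⟩
  choose e he h hh using hch
  set R' : ℝ := (4 * r + R) / 2 with hR'
  have hR'0 : 0 < R' := by rw [hR']; linarith
  have hR'R : R' < R := by rw [hR']; linarith
  have hR'r : 4 * r < R' := by rw [hR']; linarith
  obtain ⟨σ, g, hσ, hg, hconv⟩ := hHULL n f p R M R' hR'0 hR'R hM hHol hAP h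
  have hfne : ∃ z ∈ tube (ball p R'), f z ≠ 0 := by
    obtain ⟨z₁, hz₁, hf₁⟩ := hne
    obtain ⟨z', hz', hfz'⟩ := exists_ne_zero_near (isOpen_tube isOpen_ball)
      (convex_tube (convex_ball p R)) hHol.2.1 hz₁ hf₁ (z := cpt 0 p)
      (by show imPart (cpt 0 p) ∈ ball p R
          rw [imPart_cpt]; exact mem_ball_self (by linarith)) hR'0
    refine ⟨z', ?_, hfz'⟩
    show imPart z' ∈ ball p R'
    rw [mem_ball_iff_norm] at hz' ⊢
    have : imPart z' - p = imPart (z' - cpt 0 p) := by rw [imPart_sub, imPart_cpt]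
    rw [this]
    exact (norm_imPart_le _).trans_lt hz'
  have hgne := hNV n f g p R R' hR'0 hR'R.le hAP hfne (fun k => h (σ k)) hconv
  have hnull := hNULL n i j hij g p R' M (r / 2) hR'0 hM hg hgne (by linarith) (by linarith)
    (by nlinarith)
  set F : ℕ → (Fin n → ℂ) → ℂ := fun k z => f (z + cpt (h (σ k)) 0) with hF
  have he1 : ∀ k, e (σ k) ≤ r / (k + 1) := by
    intro k
    refine (he (σ k)).2.trans ?_
    have h1 : (k : ℝ) ≤ (σ k : ℝ) := by exact_mod_cast hσ.le_apply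
    gcongr
  have he2 : ∀ k, e (σ k) ≤ r := by
    intro k
    refine (he1 k).trans ?_
    rw [div_le_iff₀ (by positivity)]
    nlinarith [hr, (Nat.cast_nonneg k : (0 : ℝ) ≤ k)]
  have hFd : ∀ k, DifferentiableOn ℂ (F k) (tube (ball p R')) := by
    intro k z hz
    have hz2 : z + cpt (h (σ k)) 0 ∈ tube (ball p R) := by
      show imPart (z + cpt (h (σ k)) 0) ∈ ball p R
      rw [imPart_add, imPart_cpt, add_zero]
      exact ball_subset_ball hR'R.le hz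
    have h1 : DifferentiableAt ℂ f (z + cpt (h (σ k)) 0) :=
      (hHol.2.1 _ hz2).differentiableAt ((isOpen_tube isOpen_ball).mem_nhds hz2)
    exact (DifferentiableAt.comp z h1 (by fun_prop)).differentiableWithinAt
  set B : ℕ → Set ((Fin n → ℝ) × ℝ) := fun k => Bset (F k) p i j r (e (σ k)) with hB
  have hBm : ∀ k, MeasurableSet (B k) := fun k => measurable_B hr hr1 hR'r (he2 k) (hFd k)
  have hBs : ∀ k, B k ⊆ closedBall (0 : Fin n → ℝ) r ×ˢ Icc 0 (r / 2) := by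
    rintro k q ⟨h1, h2, -⟩
    exact ⟨h1, h2⟩
  have hBv : ∀ k, ENNReal.ofReal δ < volume (B k) := fun k =>
    (hh (σ k)).trans_le (volume_bad_le _ _ _ _ _ _ _)
  have hL := limsup_null (ENNReal.ofReal_pos.2 hδ) hBm hBs hBv
  apply hL
  refine measure_mono_null ?_ hnull
  intro q hq
  have hq1 : ∀ N : ℕ, ∃ k : ℕ, N ≤ k ∧ q ∈ B k := by
    intro N
    have := mem_iInter.1 hq N
    simpa only [mem_iUnion, exists_prop] using this
  have hqt : q.2 ∈ Icc 0 (r / 2) := by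
    obtain ⟨k, -, hk⟩ := hq1 0
    exact hk.2.1
  have hq2 : ∀ N : ℕ, ∃ k : ℕ, N ≤ k ∧ ∃ ζ : ℂ, |ζ.re| ≤ 2 * r ∧
      |ζ.im - (p i + q.2 ^ 2)| ≤ e (σ k) ∧ F k (W p i j q ζ) = 0 := by
    intro N
    obtain ⟨k, hk, hk2⟩ := hq1 N
    exact ⟨k, hk, hk2.2.2⟩
  choose κ hκ Z hZ1 hZ2 hZ3 using hq2
  have hZb : ∀ N, Z N ∈ closedBall (0 : ℂ) (|p i| + 4 * r) := by
    intro N
    rw [mem_closedBall_zero_iff]
    exact norm_le_of hr hr1 (he2 _) hqt (hZ1 N) (hZ2 N)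
  obtain ⟨ζ, -, φ, hφ, hlim⟩ := (isCompact_closedBall (0 : ℂ) (|p i| + 4 * r)).tendsto_subseq hZb
  have hκφ : ∀ m, m ≤ κ (φ m) := fun m => (hφ.le_apply).trans (hκ _)
  have he0 : Tendsto (fun m : ℕ => r / ((m : ℝ) + 1)) atTop (𝓝 0) := by
    have := tendsto_one_div_add_atTop_nhds_zero_nat (𝕜 := ℝ)
    have h2 := this.const_mul r
    simpa [div_eq_mul_inv] using h2
  have hem : ∀ m, e (σ (κ (φ m))) ≤ r / ((m : ℝ) + 1) := by
    intro m
    refine (he1 _).trans ?_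
    have h1 : (m : ℝ) ≤ (κ (φ m) : ℝ) := by exact_mod_cast hκφ m
    gcongr
  have him : ζ.im = p i + q.2 ^ 2 := by
    have h1 : Tendsto (fun m => |(Z (φ m)).im - (p i + q.2 ^ 2)|) atTop
        (𝓝 |ζ.im - (p i + q.2 ^ 2)|) := by
      have := (Complex.continuous_im.tendsto ζ).comp hlim
      exact (this.sub_const _).abs
    have h2 := le_of_tendsto_of_tendsto' h1 he0 (fun m => (hZ2 (φ m)).trans (hem m))
    have h3 : |ζ.im - (p i + q.2 ^ 2)| = 0 := le_antisymm h2 (abs_nonneg _)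
    exact sub_eq_zero.1 (abs_eq_zero.1 h3)
  refine ⟨hqt, ζ, him, ?_⟩
  show g (W p i j q ζ) = 0
  have hmem : W p i j q ζ ∈ tube (ball p R') := W_mem hr hr1 hR'r hqt (by rw [him]; simpa using hr.le)
  have hgc : ContinuousAt g (W p i j q ζ) :=
    ((hg.2.1 _ hmem).differentiableAt ((isOpen_tube isOpen_ball).mem_nhds hmem)).continuousAt
  have hWl : Tendsto (fun m => W p i j q (Z (φ m))) atTop (𝓝 (W p i j q ζ)) := by
    have h1 : Continuous (fun ζ : ℂ => W p i j q ζ) :=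
      (continuous_W p i j).comp (by fun_prop : Continuous fun ζ : ℂ => (q, ζ))
    exact (h1.tendsto ζ).comp hlim
  have hgl : Tendsto (fun m => ‖g (W p i j q (Z (φ m)))‖) atTop (𝓝 ‖g (W p i j q ζ)‖) :=
    (hgc.tendsto.comp hWl).norm
  have hle : ‖g (W p i j q ζ)‖ ≤ 0 := by
    refine le_of_forall_pos_le_add fun η hη => ?_
    rw [zero_add]
    obtain ⟨N, hN⟩ := hconv η hη
    refine le_of_tendsto hgl ?_
    filter_upwards [eventually_ge_atTop N] with m hm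
    have h1 : W p i j q (Z (φ m)) ∈ tube (ball p R') :=
      W_mem hr hr1 hR'r hqt ((hZ2 (φ m)).trans (he2 _))
    have h2 := hN (κ (φ m)) (hm.trans (hκφ m)) _ h1
    have h3 : f (W p i j q (Z (φ m)) + cpt (h (σ (κ (φ m)))) 0) = 0 := hZ3 (φ m)
    rw [h3, zero_sub, norm_neg] at h2
    exact h2
  exact norm_eq_zero.1 (le_antisymm hle (norm_nonneg _))

end Pool.Agent.W331.JS.Small
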